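import Pool.Agent.W2helper44.OT.Stm

/-!
# Project OT, piece ONE: a complex with homology in one degree
-/

set_option autoImplicit false

namespace Pool.Agent.W2helper54.OT.ONE

open Pool.Agent.W2helper44.OT

section

variable {M N : Type} [AddCommGroup M] [AddCommGroup N]

lemma mem_sub (P Q : Submodule ℤ M) (x : Q) : x ∈ P.submoduleOf Q ↔ (x : M) ∈ P := Iff.rfl

lemma op_two (h : M →ₗ[ℤ] M) (m s : ℕ) : op h m (s + 1 + 1) = op h m s := by
  have h1 : Even (s + 1 + 1) ↔ Even s := by rw [Nat.even_add_one, Nat.even_add_one, not_not]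
  unfold op
  by_cases hs : Even s
  · rw [if_pos hs, if_pos (h1.2 hs)]
  · rw [if_neg hs, if_neg fun h => hs (h1.1 h)]

lemma op_op (h : M →ₗ[ℤ] M) (m s : ℕ) (hm : ∀ x, (h ^ m) x = x) (x : M) :
    op h m s (op h m (s + 1) x) = 0 := by
  have h1 : (h ^ m : Module.End ℤ M) = 1 := LinearMap.ext hm
  have key : (op h m s : Module.End ℤ M) * (op h m (s + 1) : Module.End ℤ M) = 0 := by
    unfold op
    by_cases hs : Even s
    · have hs' : ¬ Even (s + 1) := by rw [Nat.even_add_one]; exact not_not.2 hs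
      rw [if_pos hs, if_neg hs', mul_geom_sum, h1, sub_self]
    · have hs' : Even (s + 1) := by rw [Nat.even_add_one]; exact hs
      rw [if_neg hs, if_pos hs', geom_sum_mul, h1, sub_self]
  exact LinearMap.congr_fun key x

lemma op_map (f : M →ₗ[ℤ] N) (h : M →ₗ[ℤ] M) (h' : N →ₗ[ℤ] N) (hf : ∀ x, f (h x) = h' (f x))
    (m s : ℕ) (x : M) : f (op h m s x) = op h' m s (f x) := by
  have hp : ∀ (j : ℕ) x, f ((h ^ j) x) = (h' ^ j) (f x) := by
    intro j
    induction j with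
    | zero => intro x; rfl
    | succ j ih =>
      intro x
      rw [pow_succ, pow_succ, Module.End.mul_apply, Module.End.mul_apply, ih, hf]
  unfold op
  by_cases hs : Even s
  · rw [if_pos hs, if_pos hs, LinearMap.sub_apply, LinearMap.sub_apply, map_sub, hf]
    rfl
  · rw [if_neg hs, if_neg hs, LinearMap.sum_apply, LinearMap.sum_apply, map_sum]
    exact Finset.sum_congr rfl fun j _ => hp j x

end

variable (A : Cx) (m : ℕ)

lemma D_apply (s : ℕ) (x : ∀ q, A.X q) (q : ℕ) :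
    A.D m s x q = A.d q (x (q + 1)) + ((-1 : ℤ) ^ q) • op (A.h q) m (s + q) (x q) := rfl

lemma D_two (s : ℕ) : A.D m (s + 1 + 1) = A.D m s := by
  refine LinearMap.ext fun x => funext fun q => ?_
  rw [D_apply, D_apply, show s + 1 + 1 + q = s + q + 1 + 1 by ring, op_two]

lemma D_D (hm : ∀ q (x : A.X q), (A.h q ^ m) x = x) (s : ℕ) (x : ∀ q, A.X q) :
    A.D m s (A.D m (s + 1) x) = 0 := by
  funext q
  rw [D_apply, D_apply, D_apply, map_add, A.d_d, map_zsmul, map_add, map_zsmul,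
    op_map (A.d q) _ _ (A.d_h q), show s + 1 + (q + 1) = s + q + 1 + 1 by ring, op_two,
    show s + 1 + q = s + q + 1 by ring, op_op _ _ _ (hm q), smul_zero, add_zero, zero_add,
    pow_succ, mul_neg_one, neg_smul, neg_add_cancel]
  rfl

lemma D_D' (hm : ∀ q (x : A.X q), (A.h q ^ m) x = x) (s : ℕ) (x : ∀ q, A.X q) :
    A.D m (s + 1) (A.D m s x) = 0 := by
  have h := D_D A m hm (s + 1) x
  rwa [D_two] at h

lemma mem_Z (s j : ℕ) (x : ∀ q, A.X q) (h0 : ∀ q < j, x q = 0) (h1 : ∀ q < j, A.D m s x q = 0) :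
    x j ∈ A.Z j := by
  cases j with
  | zero => exact Submodule.mem_top
  | succ i =>
    have h := h1 i (Nat.lt_succ_self i)
    rw [D_apply, h0 i (Nat.lt_succ_self i), map_zero, smul_zero, add_zero] at h
    exact h

lemma D_single_ne (s j : ℕ) (b : A.X j) (q : ℕ) (hq : q + 1 ≠ j) (hq' : q ≠ j) :
    A.D m s (Pi.single j b) q = 0 := by
  rw [D_apply, Pi.single_eq_of_ne hq, Pi.single_eq_of_ne hq', map_zero, map_zero, smul_zero,
    add_zero]

lemma D_single_pred (s j : ℕ) (b : A.X (j + 1)) :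
    A.D m s (Pi.single (j + 1) b) j = A.d j b := by
  rw [D_apply, Pi.single_eq_same, Pi.single_eq_of_ne (by omega), map_zero, smul_zero, add_zero]

lemma D_single_same (s j : ℕ) (b : A.X j) :
    A.D m s (Pi.single j b) j = ((-1 : ℤ) ^ j) • op (A.h j) m (s + j) b := by
  rw [D_apply, Pi.single_eq_same, Pi.single_eq_of_ne (by omega), map_zero, zero_add]

lemma D_single_cyc (s j : ℕ) (z : A.X j) (hz : z ∈ A.Z j) (q : ℕ) (hq : q < j) :
    A.D m s (Pi.single j z) q = 0 := by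
  rcases eq_or_ne (q + 1) j with h | h
  · subst h
    rw [D_single_pred]
    exact hz
  · exact D_single_ne A m s j z q h (by omega)

/-- Making the components in the degrees less than `j` vanish. -/
lemma kill (hm : ∀ q (x : A.X q), (A.h q ^ m) x = x) (s i₀ j : ℕ) (x : ∀ q, A.X q)
    (h0 : ∀ q < i₀, x q = 0) (h1 : ∀ q, i₀ ≤ q → q < j → A.Z q ≤ A.B q)
    (h2 : ∀ q < j, A.D m s x q = 0) :
    ∃ y : ∀ q, A.X q, ∀ q < j, (x - A.D m (s + 1) y) q = 0 := by
  rcases le_total j i₀ with hj | hj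
  · exact ⟨0, fun q hq => by rw [map_zero, sub_zero]; exact h0 q (by omega)⟩
  · have key : ∀ j', i₀ ≤ j' → j' ≤ j →
        ∃ y : ∀ q, A.X q, ∀ q < j', (x - A.D m (s + 1) y) q = 0 := by
      intro j' hj'
      induction j', hj' using Nat.le_induction with
      | base => exact fun _ => ⟨0, fun q hq => by rw [map_zero, sub_zero]; exact h0 q hq⟩
      | succ j' hj' ih =>
        intro hlt
        obtain ⟨y, hy⟩ := ih (by omega)
        have hc : (x - A.D m (s + 1) y) j' ∈ A.Z j' := by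
          refine mem_Z A m s j' _ hy fun q hq => ?_
          rw [map_sub, D_D A m hm, sub_zero]
          exact h2 q (by omega)
        obtain ⟨b, hb⟩ := h1 j' hj' (by omega) hc
        refine ⟨y + Pi.single (j' + 1) b, fun q hq => ?_⟩
        rw [map_add, ← sub_sub, Pi.sub_apply]
        rcases Nat.lt_succ_iff_lt_or_eq.1 hq with h | h
        · rw [hy q h, D_single_ne A m (s + 1) (j' + 1) b q (by omega) (by omega), sub_zero]
        · subst h
          rw [D_single_pred, hb, sub_self]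
    exact key j hj le_rfl

/-- Continuing a family upwards. -/
lemma up (hm : ∀ q (x : A.X q), (A.h q ^ m) x = x) (a : ℕ) (hex : ∀ q, q ≠ a → A.Z q ≤ A.B q)
    (s N₀ : ℕ) (hN : a < N₀) (x : ∀ q, A.X q) (h : ∀ q < N₀, A.D m s x q = 0) :
    ∃ x' : ∀ q, A.X q, A.D m s x' = 0 ∧ ∀ q ≤ N₀, x' q = x q := by
  have key : ∀ N, N₀ ≤ N →
      ∃ x' : ∀ q, A.X q, (∀ q < N, A.D m s x' q = 0) ∧ ∀ q ≤ N₀, x' q = x q := by
    intro N hN'
    induction N, hN' using Nat.le_induction with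
    | base => exact ⟨x, h, fun _ _ => rfl⟩
    | succ N hN' ih =>
      obtain ⟨x', h1, h2⟩ := ih
      have hc : (A.D m s x') N ∈ A.Z N := by
        refine mem_Z A m (s + 1) N _ h1 fun q _ => ?_
        rw [D_D' A m hm]
        rfl
      obtain ⟨c, hc⟩ := hex N (by omega) hc
      refine ⟨x' - Pi.single (N + 1) c, fun q hq => ?_, fun q hq => ?_⟩
      · rw [map_sub, Pi.sub_apply]
        rcases Nat.lt_succ_iff_lt_or_eq.1 hq with h | h
        · rw [h1 q h, D_single_ne A m s (N + 1) c q (by omega) (by omega), sub_zero]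
        · subst h
          rw [D_single_pred, hc, sub_self]
      · rw [Pi.sub_apply, h2 q hq, Pi.single_eq_of_ne (by omega), sub_zero]
  obtain ⟨x', h1, h2⟩ := key (max N₀ (A.dim + 1)) (le_max_left _ _)
  refine ⟨x', funext fun q => ?_, h2⟩
  by_cases hq : q < max N₀ (A.dim + 1)
  · exact h1 q hq
  · have : A.dim + 1 ≤ max N₀ (A.dim + 1) := le_max_right _ _
    exact A.bdd q (by omega) _

/-- The cocycles which vanish in the degrees less than `a`. -/
def Zp (a s : ℕ) : Submodule ℤ (∀ q, A.X q) where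
  carrier := {x | A.D m s x = 0 ∧ ∀ q < a, x q = 0}
  zero_mem' := ⟨map_zero _, fun _ _ => rfl⟩
  add_mem' := fun {x y} hx hy => ⟨by rw [map_add, hx.1, hy.1, add_zero],
    fun q hq => by rw [Pi.add_apply, hx.2 q hq, hy.2 q hq, add_zero]⟩
  smul_mem' := fun c x hx => ⟨by rw [map_zsmul, hx.1, smul_zero],
    fun q hq => by rw [Pi.smul_apply, hx.2 q hq, smul_zero]⟩

lemma Zp_le (a s : ℕ) : Zp A m a s ≤ LinearMap.ker (A.D m s) := fun _ hx => hx.1

/-- The map to the hypercohomology. -/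
noncomputable def f1 (a s : ℕ) : Zp A m a s →ₗ[ℤ] A.G m s :=
  (Submodule.mkQ _) ∘ₗ (Submodule.inclusion (Zp_le A m a s))

lemma f1_eq_zero (a s : ℕ) (x : Zp A m a s) :
    f1 A m a s x = 0 ↔ (x : ∀ q, A.X q) ∈ LinearMap.range (A.D m (s + 1)) := by
  unfold f1
  rw [LinearMap.comp_apply, Submodule.mkQ_apply, Submodule.Quotient.mk_eq_zero,
    mem_sub]
  rfl

lemma f1_surj (hm : ∀ q (x : A.X q), (A.h q ^ m) x = x) (a s : ℕ)
    (hex : ∀ q, q ≠ a → A.Z q ≤ A.B q) : Function.Surjective (f1 A m a s) := by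
  intro t
  obtain ⟨⟨x, hx⟩, rfl⟩ := Submodule.mkQ_surjective _ t
  have hx' : A.D m s x = 0 := hx
  obtain ⟨y, hy⟩ := kill A m hm s 0 a x (fun q hq => by omega) (fun q _ hq => hex q (by omega))
    (fun q _ => by rw [hx']; rfl)
  refine ⟨⟨x - A.D m (s + 1) y, by rw [map_sub, D_D A m hm, hx', sub_zero], hy⟩, ?_⟩
  unfold f1
  rw [LinearMap.comp_apply, Submodule.mkQ_apply, Submodule.mkQ_apply, Submodule.Quotient.eq,
    mem_sub]
  refine ⟨-y, ?_⟩
  rw [map_neg]
  change - A.D m (s + 1) y = x - A.D m (s + 1) y - x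
  abel

/-- The component of degree `a` is a cycle. -/
noncomputable def g (a s : ℕ) : Zp A m a s →ₗ[ℤ] A.Z a :=
  LinearMap.codRestrict (A.Z a) ((LinearMap.proj a) ∘ₗ (Zp A m a s).subtype)
    fun x => mem_Z A m s a x.1 x.2.2 fun q _ => by rw [x.2.1]; rfl

lemma coe_g (a s : ℕ) (x : Zp A m a s) : (g A m a s x : A.X a) = x.1 a := rfl

lemma op_hH (a t : ℕ) (z : A.Z a) :
    op (A.hH a) m t (Submodule.Quotient.mk z) =
      Submodule.Quotient.mk (op (A.hZ a) m t z) :=
  (op_map ((A.B a).submoduleOf (A.Z a)).mkQ (A.hZ a) (A.hH a) (fun _ => rfl) m t z).symm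

lemma coe_op_hZ (a t : ℕ) (z : A.Z a) :
    ((op (A.hZ a) m t z : A.Z a) : A.X a) = op (A.h a) m t (z : A.X a) :=
  op_map (A.Z a).subtype (A.hZ a) (A.h a) (fun _ => rfl) m t z

lemma g_mem (a s : ℕ) (x : Zp A m a s) :
    (Submodule.mkQ ((A.B a).submoduleOf (A.Z a)) ∘ₗ g A m a s) x ∈
      LinearMap.ker (op (A.hH a) m (s + a)) := by
  rw [LinearMap.mem_ker, LinearMap.comp_apply, Submodule.mkQ_apply, op_hH,
    Submodule.Quotient.mk_eq_zero, mem_sub, coe_op_hZ, coe_g]
  have h := congrFun x.2.1 a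
  rw [D_apply] at h
  have h1 : op (A.h a) m (s + a) (x.1 a) =
      A.d a (-(((-1 : ℤ) ^ a) • x.1 (a + 1))) := by
    have h2 : ((-1 : ℤ) ^ a) • (A.d a (x.1 (a + 1)) +
        ((-1 : ℤ) ^ a) • op (A.h a) m (s + a) (x.1 a)) = 0 := by
      rw [h]
      exact smul_zero _
    rw [smul_add, smul_smul, ← mul_pow, neg_mul_neg, one_mul, one_pow, one_smul] at h2
    rw [map_neg, map_zsmul]
    exact eq_neg_of_add_eq_zero_right h2
  exact ⟨_, h1.symm⟩

/-- The map to the Tate group of the homology. -/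
noncomputable def f2 (a s : ℕ) : Zp A m a s →ₗ[ℤ] Tate (A.H a) (A.hH a) m (s + a) :=
  (Submodule.mkQ _) ∘ₗ (LinearMap.codRestrict (LinearMap.ker (op (A.hH a) m (s + a)))
    (Submodule.mkQ ((A.B a).submoduleOf (A.Z a)) ∘ₗ g A m a s) (g_mem A m a s))

lemma f2_eq_zero (a s : ℕ) (x : Zp A m a s) :
    f2 A m a s x = 0 ↔ ∃ (z : A.X a) (b : A.X (a + 1)), z ∈ A.Z a ∧
      x.1 a = A.d a b + op (A.h a) m (s + 1 + a) z := by
  unfold f2
  rw [LinearMap.comp_apply, Submodule.mkQ_apply, Submodule.Quotient.mk_eq_zero,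
    mem_sub, LinearMap.codRestrict_apply,
    LinearMap.comp_apply, Submodule.mkQ_apply, show s + a + 1 = s + 1 + a by ring]
  constructor
  · rintro ⟨u, hu⟩
    obtain ⟨z, rfl⟩ := Submodule.mkQ_surjective _ u
    rw [Submodule.mkQ_apply, op_hH, Submodule.Quotient.eq, mem_sub] at hu
    obtain ⟨b, hb⟩ := hu
    refine ⟨z, -b, z.2, ?_⟩
    rw [map_neg, hb, Submodule.coe_sub, coe_op_hZ, coe_g]
    abel
  · rintro ⟨z, b, hz, h⟩
    refine ⟨Submodule.Quotient.mk ⟨z, hz⟩, ?_⟩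
    rw [op_hH, Submodule.Quotient.eq, mem_sub]
    refine ⟨-b, ?_⟩
    rw [map_neg, Submodule.coe_sub, coe_op_hZ, coe_g, h]
    abel

lemma f2_surj (hm : ∀ q (x : A.X q), (A.h q ^ m) x = x) (a s : ℕ)
    (hex : ∀ q, q ≠ a → A.Z q ≤ A.B q) : Function.Surjective (f2 A m a s) := by
  intro t
  obtain ⟨⟨u, hu⟩, rfl⟩ := Submodule.mkQ_surjective _ t
  obtain ⟨z, rfl⟩ := Submodule.mkQ_surjective _ u
  rw [LinearMap.mem_ker, Submodule.mkQ_apply, op_hH, Submodule.Quotient.mk_eq_zero,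
    mem_sub] at hu
  obtain ⟨b, hb⟩ := hu
  rw [coe_op_hZ] at hb
  have hstart : ∀ q < a + 1, A.D m s (Pi.single a (z : A.X a) -
      Pi.single (a + 1) (((-1 : ℤ) ^ a) • b)) q = 0 := by
    intro q hq
    rw [map_sub, Pi.sub_apply]
    rcases Nat.lt_succ_iff_lt_or_eq.1 hq with h | h
    · rw [D_single_cyc A m s a z z.2 q h,
        D_single_ne A m s (a + 1) _ q (by omega) (by omega), sub_zero]
    · subst h
      rw [D_single_pred, D_single_same, map_zsmul, hb, sub_self]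
  obtain ⟨x, hx1, hx2⟩ := up A m hm a hex s (a + 1) (by omega) _ hstart
  have hxa : x a = z := by
    rw [hx2 a (by omega), Pi.sub_apply, Pi.single_eq_same, Pi.single_eq_of_ne (by omega), sub_zero]
  have hx0 : ∀ q < a, x q = 0 := fun q hq => by
    rw [hx2 q (by omega), Pi.sub_apply, Pi.single_eq_of_ne (by omega),
      Pi.single_eq_of_ne (by omega), sub_zero]
  refine ⟨⟨x, hx1, hx0⟩, ?_⟩
  unfold f2
  rw [LinearMap.comp_apply]
  congr 1
  apply Subtype.ext
  rw [LinearMap.codRestrict_apply, LinearMap.comp_apply]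
  congr 1
  exact Subtype.ext hxa

lemma ker_eq (hm : ∀ q (x : A.X q), (A.h q ^ m) x = x) (a s : ℕ)
    (hex : ∀ q, q ≠ a → A.Z q ≤ A.B q) :
    LinearMap.ker (f1 A m a s) = LinearMap.ker (f2 A m a s) := by
  ext x
  rw [LinearMap.mem_ker, LinearMap.mem_ker, f1_eq_zero, f2_eq_zero]
  constructor
  · rintro ⟨y, hy⟩
    obtain ⟨w, hw⟩ := kill A m hm (s + 1) 0 a y (fun q hq => by omega)
      (fun q _ hq => hex q (by omega)) (fun q hq => by rw [hy]; exact x.2.2 q hq)
    have hy' : A.D m (s + 1) (y - A.D m (s + 1 + 1) w) = x.1 := by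
      rw [map_sub, D_D A m hm, sub_zero, hy]
    set y' := y - A.D m (s + 1 + 1) w with hy'def
    have hc : y' a ∈ A.Z a := mem_Z A m (s + 1) a y' hw fun q hq => by
      rw [hy']
      exact x.2.2 q hq
    refine ⟨((-1 : ℤ) ^ a) • y' a, y' (a + 1), Submodule.smul_mem _ _ hc, ?_⟩
    rw [← hy', D_apply, map_zsmul]
  · rintro ⟨z, b, hz, h⟩
    have h0 : ∀ q < a + 1, (x.1 - A.D m (s + 1)
        (((-1 : ℤ) ^ a) • Pi.single a z + Pi.single (a + 1) b)) q = 0 := by
      intro q hq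
      rw [Pi.sub_apply, map_add, map_zsmul, Pi.add_apply, Pi.smul_apply]
      rcases Nat.lt_succ_iff_lt_or_eq.1 hq with h' | h'
      · rw [x.2.2 q h', D_single_cyc A m (s + 1) a z hz q h',
          D_single_ne A m (s + 1) (a + 1) _ q (by omega) (by omega), smul_zero, add_zero, sub_zero]
      · subst h'
        rw [D_single_pred, D_single_same, smul_smul, ← mul_pow, neg_mul_neg, one_mul, one_pow,
          one_smul, h]
        abel
    obtain ⟨y, hy⟩ := kill A m hm s (a + 1) (A.dim + 1) _ h0 (fun q hq _ => hex q (by omega))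
      (fun q _ => by rw [map_sub, D_D A m hm, sub_zero, x.2.1]; rfl)
    refine ⟨(((-1 : ℤ) ^ a) • Pi.single a z + Pi.single (a + 1) b) + y, ?_⟩
    funext q
    by_cases hq : q < A.dim + 1
    · have h1 := hy q hq
      rw [Pi.sub_apply, Pi.sub_apply] at h1
      rw [map_add (A.D m (s + 1)) (((-1 : ℤ) ^ a) • Pi.single a z + Pi.single (a + 1) b) y,
        Pi.add_apply]
      rw [sub_sub] at h1
      exact (sub_eq_zero.1 h1).symm
    · rw [A.bdd q (by omega) (x.1 q)]
      exact A.bdd q (by omega) _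

theorem p_ONE : P_ONE := by
  intro A m a hm hex s
  exact ⟨(LinearMap.quotKerEquivOfSurjective (f1 A m a s) (f1_surj A m hm a s hex)).symm ≪≫ₗ
    (Submodule.quotEquivOfEq _ _ (ker_eq A m hm a s hex)) ≪≫ₗ
    (LinearMap.quotKerEquivOfSurjective (f2 A m a s) (f2_surj A m hm a s hex))⟩

end Pool.Agent.W2helper54.OT.ONE
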